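import Pool.Agent.Helper57.SS.Goals

/-!
# Packet SS-REV: reverse martingale convergence in mean
-/

set_option autoImplicit false

namespace Pool.Agent.Helper98.SS

open MeasureTheory Filter Topology Pool.Agent.Helper57.SS

theorem gREV : G_REV := by
  intro α m0 μ _ F hF hF0 f hf h0
  have hle : ∀ n, F n ≤ m0 := fun n => (hF (Nat.zero_le n)).trans hF0
  have hfi : Integrable f μ := by
    refine Integrable.of_bound hf.1.aestronglyMeasurable 1 (ae_of_all _ fun x => ?_)
    simpa using hf.2 x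
  set u : ℕ → α → ℝ := fun n => μ[f | F n] with hu
  have hub : ∀ n, ∀ᵐ x ∂μ, |u n x| ≤ 1 := by
    intro n
    have := ae_bdd_condExp_of_ae_bdd (m := F n) (μ := μ) (R := 1) (f := f)
      (ae_of_all _ fun x => by simpa using hf.2 x)
    simpa using this
  have hum : ∀ n, StronglyMeasurable[F n] (u n) := fun n => stronglyMeasurable_condExp
  have hus : ∀ n, AEStronglyMeasurable (u n) μ := fun n =>
    ((hum n).mono (hle n)).aestronglyMeasurable
  have hui : ∀ n, Integrable (u n) μ := fun n => integrable_condExp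
  have hu2 : ∀ n, MemLp (u n) 2 μ := fun n =>
    MemLp.of_bound (hus n) 1 ((hub n).mono fun x hx => by simpa using hx)
  -- inner products
  have hmul : ∀ n m, Integrable (fun x => u n x * u m x) μ := by
    intro n m
    refine Integrable.of_bound ((hus n).mul (hus m)) 1 ?_
    filter_upwards [hub n, hub m] with x h1 h2
    rw [Real.norm_eq_abs, abs_mul]
    calc |u n x| * |u m x| ≤ 1 * 1 := mul_le_mul h1 h2 (abs_nonneg _) zero_le_one
      _ = 1 := one_mul 1
  have hinner : ∀ n m, n ≤ m → ∫ x, u n x * u m x ∂μ = ∫ x, u m x * u m x ∂μ := by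
    intro n m hnm
    have h1 : μ[fun x => u n x * u m x | F m] =ᵐ[μ] fun x => (μ[u n | F m]) x * u m x :=
      condExp_mul_of_stronglyMeasurable_right (hum m) (hmul n m) (hui n)
    have h2 : μ[u n | F m] =ᵐ[μ] u m := condExp_condExp_of_le (hF hnm) (hle n)
    rw [← integral_condExp (hle m)]
    refine integral_congr_ae ?_
    filter_upwards [h1, h2] with x h1 h2
    rw [h1, h2]
  set E : ℕ → ℝ := fun n => ∫ x, u n x * u n x ∂μ with hE
  have hdiff : ∀ n m, n ≤ m → ∫ x, (u n x - u m x) ^ 2 ∂μ = E n - E m := by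
    intro n m hnm
    have : ∀ x, (u n x - u m x) ^ 2 = u n x * u n x - 2 * (u n x * u m x) + u m x * u m x := by
      intro x; ring
    have i1 : Integrable (fun x => u n x * u n x - 2 * (u n x * u m x)) μ :=
      (hmul n n).sub ((hmul n m).const_mul 2)
    have e1 : ∫ x, (u n x - u m x) ^ 2 ∂μ
        = ∫ x, ((u n x * u n x - 2 * (u n x * u m x)) + u m x * u m x) ∂μ :=
      integral_congr_ae (ae_of_all _ this)
    have e2 : ∫ x, ((u n x * u n x - 2 * (u n x * u m x)) + u m x * u m x) ∂μ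
        = ∫ x, (u n x * u n x - 2 * (u n x * u m x)) ∂μ + ∫ x, u m x * u m x ∂μ :=
      integral_add i1 (hmul m m)
    have e3 : ∫ x, (u n x * u n x - 2 * (u n x * u m x)) ∂μ
        = ∫ x, u n x * u n x ∂μ - ∫ x, 2 * (u n x * u m x) ∂μ :=
      integral_sub (hmul n n) ((hmul n m).const_mul 2)
    rw [e1, e2, e3, integral_const_mul, hinner n m hnm]
    simp only [hE]; ring
  have hanti : Antitone E := by
    intro n m hnm
    have := hdiff n m hnm
    have h2 : 0 ≤ ∫ x, (u n x - u m x) ^ 2 ∂μ := integral_nonneg fun x => sq_nonneg _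
    linarith
  have hEnn : ∀ n, 0 ≤ E n := fun n => integral_nonneg fun x => mul_self_nonneg _
  have hEc : CauchySeq E :=
    (tendsto_atTop_ciInf hanti ⟨0, by rintro _ ⟨n, rfl⟩; exact hEnn n⟩).cauchySeq
  -- the sequence in L2
  set U : ℕ → Lp ℝ 2 μ := fun n => (hu2 n).toLp (u n) with hU
  have hdist : ∀ n m, dist (U n) (U m) ^ 2 = ∫ x, (u n x - u m x) ^ 2 ∂μ := by
    intro n m
    rw [Lp.dist_def]
    have h1 : eLpNorm (fun x => (U n : α → ℝ) x - (U m : α → ℝ) x) 2 μ
        = eLpNorm (fun x => u n x - u m x) 2 μ := by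
      refine eLpNorm_congr_ae ?_
      filter_upwards [(hu2 n).coeFn_toLp, (hu2 m).coeFn_toLp] with x h1 h2
      simp only [hU]
      rw [h1, h2]
    have h1' : eLpNorm (⇑(U n) - ⇑(U m)) 2 μ = eLpNorm (fun x => u n x - u m x) 2 μ := h1
    rw [h1']
    have h2 := MemLp.eLpNorm_eq_integral_rpow_norm (μ := μ) (p := 2) (by norm_num) (by norm_num)
      ((hu2 n).sub (hu2 m))
    have h3 : eLpNorm (fun x => u n x - u m x) 2 μ = eLpNorm (u n - u m) 2 μ := rfl
    rw [h3, h2]
    have hnn : 0 ≤ ∫ a, ‖(u n - u m) a‖ ^ (2 : ENNReal).toReal ∂μ :=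
      integral_nonneg fun x => by positivity
    rw [ENNReal.toReal_ofReal (by positivity), ← Real.rpow_natCast, ← Real.rpow_mul hnn]
    simp
  have hUc : CauchySeq U := by
    rw [Metric.cauchySeq_iff'] at hEc ⊢
    intro ε hε
    obtain ⟨N, hN⟩ := hEc (ε ^ 2) (by positivity)
    refine ⟨N, fun n hn => ?_⟩
    have h1 := hN n hn
    rw [Real.dist_eq, abs_lt] at h1
    have h2 : dist (U n) (U N) ^ 2 < ε ^ 2 := by
      rw [dist_comm, hdist, hdiff N n hn]
      linarith [h1.1]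
    exact lt_of_pow_lt_pow_left₀ 2 hε.le h2
  obtain ⟨v, hv⟩ := cauchySeq_tendsto_of_complete hUc
  have hv2 : Tendsto (fun n => eLpNorm (u n - ⇑v) 2 μ) atTop (𝓝 0) := by
    have h1 := (Lp.tendsto_Lp_iff_tendsto_eLpNorm' _ _).1 hv
    refine h1.congr fun n => ?_
    refine eLpNorm_congr_ae ?_
    filter_upwards [(hu2 n).coeFn_toLp] with x h1
    simp only [hU, Pi.sub_apply]
    rw [h1]
  have hvs : AEStronglyMeasurable (⇑v) μ := (Lp.stronglyMeasurable v).aestronglyMeasurable
  have hv1 : Tendsto (fun n => eLpNorm (u n - ⇑v) 1 μ) atTop (𝓝 0) := by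
    refine tendsto_of_tendsto_of_tendsto_of_le_of_le tendsto_const_nhds hv2 (fun _ => zero_le)
      fun n => ?_
    exact eLpNorm_le_eLpNorm_of_exponent_le (by norm_num) ((hus n).sub hvs)
  have hvi : Integrable (⇑v) μ := (Lp.memLp v).integrable (by norm_num)
  -- a version measurable for all F n
  have hmeas : TendstoInMeasure μ u atTop (⇑v) :=
    tendstoInMeasure_of_tendsto_eLpNorm (by norm_num) hus hvs hv2
  obtain ⟨φ, hφ, hφae⟩ := hmeas.exists_seq_tendsto_ae
  set w : α → ℝ := fun x => limsup (fun k => u (φ k) x) atTop with hw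
  have hwm : Measurable[⨅ n, F n] w := by
    rw [measurable_iff_comap_le]
    refine le_iInf fun N => ?_
    rw [← measurable_iff_comap_le]
    have : w = fun x => limsup (fun k => u (φ (k + N)) x) atTop := by
      funext x
      exact (limsup_nat_add (fun k => u (φ k) x) N).symm
    rw [this]
    refine Measurable.limsup fun k => ?_
    have hk : N ≤ φ (k + N) := (Nat.le_add_left N k).trans (hφ.le_apply)
    exact ((hum (φ (k + N))).mono (hF hk)).measurable
  have hwv : w =ᵐ[μ] ⇑v := by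
    filter_upwards [hφae] with x hx
    exact hx.limsup_eq
  have hinf : (⨅ n, F n) ≤ m0 := (iInf_le F 0).trans hF0
  have hwi : Integrable w μ := hvi.congr hwv.symm
  have hws : StronglyMeasurable[⨅ n, F n] w := hwm.stronglyMeasurable
  have hcw : μ[w | ⨅ n, F n] = w := condExp_of_stronglyMeasurable hinf hws hwi
  have hcv : μ[⇑v | ⨅ n, F n] =ᵐ[μ] ⇑v := by
    have h1 : μ[⇑v | ⨅ n, F n] =ᵐ[μ] μ[w | ⨅ n, F n] := condExp_congr_ae hwv.symm
    rw [hcw] at h1
    exact h1.trans hwv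
  have hcu : ∀ n, μ[u n | ⨅ n, F n] =ᵐ[μ] 0 := fun n =>
    (condExp_condExp_of_le (iInf_le F n) (hle n)).trans h0
  have hvbd : ∀ n, eLpNorm (⇑v) 1 μ ≤ eLpNorm (u n - ⇑v) 1 μ := by
    intro n
    have h1 : μ[u n - ⇑v | ⨅ n, F n] =ᵐ[μ] - ⇑v := by
      refine (condExp_sub (hui n) hvi _).trans ?_
      filter_upwards [hcu n, hcv] with x h1 h2
      simp [h1, h2]
    calc eLpNorm (⇑v) 1 μ = eLpNorm (-⇑v) 1 μ := (eLpNorm_neg _ _ _).symm
      _ = eLpNorm (μ[u n - ⇑v | ⨅ n, F n]) 1 μ := eLpNorm_congr_ae h1.symm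
      _ ≤ eLpNorm (u n - ⇑v) 1 μ := eLpNorm_condExp_le_eLpNorm _ le_rfl
  have hv0 : eLpNorm (⇑v) 1 μ = 0 := by
    refine le_antisymm ?_ zero_le
    exact ge_of_tendsto hv1 (Eventually.of_forall hvbd)
  have hfin : ∀ n, eLpNorm (u n) 1 μ ≤ eLpNorm (u n - ⇑v) 1 μ := by
    intro n
    have h1 : u n = (u n - ⇑v) + ⇑v := by simp
    calc eLpNorm (u n) 1 μ = eLpNorm ((u n - ⇑v) + ⇑v) 1 μ := by rw [← h1]
      _ ≤ eLpNorm (u n - ⇑v) 1 μ + eLpNorm (⇑v) 1 μ :=
          eLpNorm_add_le ((hus n).sub hvs) hvs le_rfl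
      _ = eLpNorm (u n - ⇑v) 1 μ := by rw [hv0, add_zero]
  exact tendsto_of_tendsto_of_tendsto_of_le_of_le tendsto_const_nhds hv1 (fun _ => zero_le) hfin

end Pool.Agent.Helper98.SS
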